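import Pool.Agent.Helper4.TL.Edge
import Pool.Agent.Helper93.TLE.StB
import Pool.Agent.Helper14.W5.StE

/-!
# Project TL (levels `4·5^n`): lower bound

Models: the statements of `Helper14/W5/StD.lean` with the same names (project W5) and their modules `Pool/Agent/*/W5/M_*.lean`. The operator calculus on plane functions (`tr5`, `op5`, `opL`, `mulL`, `Wd5`, `Lw`, `cS`, `M7`, `nS`, `bb5`, and the proved
statements `S5Trm, S5Low0, S5Nfa, S5Exp, S5Lw1, S5Bb, S5PlA, S5PlU`) is the one of W5, unchanged: all signs are coefficients. The plane functions of a twisted symbol are `F_i(g) = eps(g) (G(g e_i) - G(g 0))`, `e_0 = ∞`, `e_1 = 1/2` (`edgeE`).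
`T = (1 1; 0 1)`, `τ2 = (2 -1; 5 -2)` (swaps the cusps `0` and `1/2`), `τ3 = (3 -2; 5 -3)` (swaps `1/2` and `1`); all three have `eps = -1`; `τ2² = τ3² = -1`. The Hecke operator of level `(r, s)` is `Tl l (2 * 5^r)`, `l ≠ 2, 5`.
-/

set_option autoImplicit false

namespace Pool.Agent.Helper4.TL

open Pool.Agent.Helper14.CV (Homog EqC act Tl StFar StFex)
open Pool.Agent.Helper28.WK (Tw evw)
open Pool.Agent.Helper14.W5 (e5 tr5 Fn5 Tm opL op5 mulL sclL Gd mmL idL Wd5 Qo dX dY cS M7 nS bb5 S5PlA S5PlU S5Trm S5Low0 S5Nfa S5Exp S5Lw1 S5Bb)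
open Pool.Agent.Helper93.TLE (DDE ddE5 LBE SEHk)

/-- TRE (from EDG, PLA). Values on translated paths: for `γ = (a b; 5c d)` of determinant one the path from `γ v` to `γ u` at the point `p` is `eps(γ)` times the
path from `v` to `u` at `p γ` (if `g` has coordinates `p` then `g γ` has coordinates `p γ`; `eps(g) = eps(g γ) eps(γ)`). Model: `Pool/Agent/Helper69/W5/M_Tre.lean`. -/
def TTre : Prop := ∀ (R : Type) (_ : AddCommGroup R) (r s : ℕ) (G : ℤ → ℤ → R), SymE 5 r (s + 1) G →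
  ∀ (a b c d u1 u2 v1 v2 : ℤ), a * d - 5 * b * c = 1 → (u1 ≠ 0 ∨ u2 ≠ 0) → (v1 ≠ 0 ∨ v2 ≠ 0) →
  ∀ (x : ZMod (5 ^ r)) (y : ZMod (5 ^ s)),
  edgeE 0 (a * u1 + b * u2) (5 * c * u1 + d * u2) (a * v1 + b * v2) (5 * c * v1 + d * v2) G x y =
    eps a b (5 * c) d • tr5 a b c d (edgeE 0 u1 u2 v1 v2 G) x y

/-- The two plane functions of a symbol: `F0(g) = eps(g) (G(g∞) - G(g0))`, `F1(g) = eps(g) (G(g½) - G(g0))`. -/
noncomputable def pfE {R : Type} [AddCommGroup R] {q q' : ℕ} (G : ℤ → ℤ → R) (i : Fin 2) :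
    ZMod q → ZMod q' → R := fun x y => edgeE 0 1 (e5 i) 0 1 G x y

/-- The relations between the two functions: `F1 - F1∘τ2 = 0` and, for `k = F0 + F0∘T - F1` (path from `1/2` to `1`), `k - k∘τ3 = 0`. -/
def RelE {R : Type} [AddCommGroup R] {q q' : ℕ} (F : Fin 2 → ZMod q → ZMod q' → R) : Prop :=
  (∀ x y, F 1 x y - tr5 2 (-1) 1 (-2) (F 1) x y = 0) ∧
  ∀ x y, F 0 x y + tr5 1 1 0 1 (F 0) x y - F 1 x y -
    (tr5 3 (-2) 1 (-3) (F 0) x y + tr5 3 1 1 2 (F 0) x y - tr5 3 (-2) 1 (-3) (F 1) x y) = 0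

/-- REL (from TRE). The plane functions of a symbol satisfy the relations. `τ2` swaps `0` and `½`, `eps(τ2) = -1`: `F1(pτ2) = eps(τ2) eps(g) (G(g0) - G(g½)) = F1(p)`; `F0(p) + F0(pT) = eps(g) (G(g1) - G(g0))` (`T` fixes `∞`, maps `0` to `1`, `eps(T) = -1`),
so `k(p) = eps(g) (G(g1) - G(g½))`, and `τ3` swaps `½` and `1`, `eps(τ3) = -1`; `τ3 T = (3 1; 5 2)`. Model: `Pool/Agent/Helper67/W5/M_Rel.lean`. -/
def TRel : Prop := ∀ (R : Type) (_ : AddCommGroup R) (r s : ℕ) (G : ℤ → ℤ → R),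
  SymE 5 r (s + 1) G → RelE (fun i => (pfE G i : ZMod (5 ^ r) → ZMod (5 ^ s) → R))

/-- EX (from TRM, PLA, EDG, FEX, FAR of CV). Every solution of the relations comes from a symbol. Proof. For `g = (a b; c d)` in `SL₂(ℤ)` define `E g` (the future value `G(g∞) - G(g0)`) by the class `(c : d)` modulo `5`; for
`γ = (a b; 5c' d)` let `p(γ) = (b/a, c'/d)`; `g S = (b -a; d -c)`; `k = F0 + F0∘T - F1`.
`5 ∣ c`: `E g = eps(g) F0(p(g))`. `5 ∣ d`: `E g = -E(gS)`. `c ≡ d`: `E g = eps(γ) (F0(p(γ)) + F0(p(γ T)))`, `γ = g (1 0; -1 1)` (path `γ{0,1}`). `c ≡ -d`: `E g = -E(gS)` (`gS` is in the class `c ≡ d`). `c ≡ 2d`: `E g = eps(γ) F1(p(γ))`, `γ = g (1 0; -2 1)` (path `γ{0,½}`).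
`c ≡ 3d`: `E g = eps(γ) k(p(γ))`, `γ = g (2 -1; -1 1)` (path `γ{½,1}`). `E(gS) = -E g`: for the last two classes (which `S` preserves) `γ` is replaced by `γ τ2`, `γ τ3`, of sign `-eps(γ)`: this is RelE. `E(-g) = E g`. Triangle relation of FEX
(`E g = E (g (1 1; 0 1)) + E (g (1 0; 1 1))`): as in W5 (`eps(γ T) = -eps(γ)`): for `5 ∣ c` it says `eps(γ) F0(γ) = eps(γT) F0(γT) + eps(γ) (F0(γ) + F0(γT))`, and the triangle `γ{0,½,1}` is `F0(γ) + F0(γT) = k(γ) + F1(γ)`.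
`E(γ' g) = eps(γ') E g` for `γ'` in the group of the symbol (coordinates do not change, `eps(γ' γ) = eps(γ') eps(γ)`), so `G∘γ' - eps(γ') G` has equal values at `g∞`, `g0` for all `g`: constant by FAR. `pfE G i = F i`: evaluate at the standard matrix, `eps² = 1`.
Model: `Pool/Agent/Helper10/W5/M_Ex.lean`. -/
def TEx : Prop := ∀ (R : Type) (_ : AddCommGroup R) (r s : ℕ)
  (F : Fin 2 → ZMod (5 ^ r) → ZMod (5 ^ s) → R), RelE F →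
  ∃ G : ℤ → ℤ → R, SymE 5 r (s + 1) G ∧ ∀ i, pfE G i = F i

/-- UNI (from EDG/TRE, FAR). A symbol with `F0 = F1 = 0` is constant: as in `Pool/Agent/Helper34/W5/M_Uni.lean` (a sign times a difference vanishes iff the difference vanishes). -/
def TUni : Prop := ∀ (R : Type) (_ : AddCommGroup R) (r s : ℕ) (G : ℤ → ℤ → R),
  SymE 5 r (s + 1) G → (∀ i, (pfE G i : ZMod (5 ^ r) → ZMod (5 ^ s) → R) = 0) → EqC G 0

/-- HKB. Hecke sums for balanced levels `(r, s)` (from SEHk by `G0(p,q) = G(5^r p, q)`, which is a twisted symbol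
of level `(0, r+s)` (`(a b; 5^(r+s) c d)` becomes `(a 5^r b; 5^s c d)`, the same modulo `2`), `G(p,q) = G0(p, 5^r q)`, `(Tl l 2 G0)(p,q) = (Tl l (2 5^r) G)(5^r p, q)`; `δ` becomes `(a, b/5^r; 5^r c, d)`), and `T_l` preserves
symbols (SEHk, or SEHkS). Hypothesis: `SEHk` of `Helper93/TLE/StB.lean` (and `SEHkS`). Model: `Pool/Agent/Helper22/W5/M_HkB.lean`. -/
def THkB : Prop := ∀ (R : Type) (_ : AddCommGroup R) (r s l : ℕ) (G : ℤ → ℤ → R), l.Prime →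
  l ≠ 5 → l ≠ 2 → SymE 5 r s G → SymE 5 r s (Tl l (2 * 5 ^ r) G) ∧
  ∀ δ : Fin (l + 1) → Matrix (Fin 2) (Fin 2) ℤ,
  (∀ P, (δ P).det = l) → (∀ P, (5 : ℤ) ^ r ∣ δ P 0 1) → (∀ P, (5 : ℤ) ^ s ∣ δ P 1 0) →
  (∀ P P', P ≠ P' → ¬ ∀ i j, (l : ℤ) ∣ (δ P * (δ P').adjugate) i j) →
  EqC (fun p q => ∑ P, eps (δ P 0 0) (δ P 0 1) (δ P 1 0) (δ P 1 1) •
    G (δ P 0 0 * p + δ P 0 1 * q) (δ P 1 0 * p + δ P 1 1 * q)) (Tl l (2 * 5 ^ r) G)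

/-- HKF (from HKB, EDG, PLA). Hecke formula on the plane for the path from `v` to `u`. `J` is a complete system of residues modulo `l`. For `g` with
coordinates `(x,y)` use in HKB the family `δ = g_j (1 j; 0 l) g⁻¹`, `j ∈ J`, and `g_∞ (l 0; 0 1) g⁻¹`, where `g_j` is the standard matrix with coordinates
`((x-j)/l, l y/(1-5jy))` (this is `(x,y) (l -j; 0 1)`) and `g_∞` the one with coordinates `(l x, y/l)` (this is `(x,y)(1 0; 0 l)`). `eps(δ) = eps(g_j) eps(1 j; 0 l) eps(g)`, `eps(l 0; 0 1) = 1`, so `eps(g) eps(δ) (G(δ g u) - G(δ g v)) = eps(1 j; 0 l) eps(g_j) (G(g_j (1 j; 0 l) u) - ...)`.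
Model: `Pool/Agent/Helper60/W5/M_HkF.lean`. -/
def THkF : Prop := ∀ (R : Type) (_ : AddCommGroup R) (r s l : ℕ) (G : ℤ → ℤ → R) (J : Finset ℤ),
  l.Prime → l ≠ 5 → l ≠ 2 → SymE 5 r (s + 1) G → J.card = l →
  (∀ j ∈ J, ∀ j' ∈ J, (l : ℤ) ∣ j - j' → j = j') →
  ∀ (u1 u2 v1 v2 : ℤ), (u1 ≠ 0 ∨ u2 ≠ 0) → (v1 ≠ 0 ∨ v2 ≠ 0) → ∀ (x : ZMod (5 ^ r)) (y : ZMod (5 ^ s)),
  edgeE 0 u1 u2 v1 v2 (Tl l (2 * 5 ^ r) G) x y =
    tr5 1 0 0 l (edgeE 0 (l * u1) u2 (l * v1) v2 G) x y +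
    ∑ j ∈ J, eps 1 j 0 l • tr5 l (-j) 0 1 (edgeE 0 (u1 + j * u2) (l * u2) (v1 + j * v2) (l * v2) G) x y

/-! ### Hecke rows from lists of paths -/

/-- A term `(k, f, a, b, c, d)` stands for `k` times the path from `γ 0` to `γ (1/e_f)`, `γ = (a b; 5c d)`. -/
abbrev Pth : Type := ℤ × Fin 2 × ℤ × ℤ × ℤ × ℤ

/-- The end points (with multiplicities) of a list of paths. -/
def endP (L : List Pth) : List (ℤ × ℤ × ℤ) := L.flatMap fun t =>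
  [(t.1, t.2.2.1 + t.2.2.2.1 * e5 t.2.1, 5 * t.2.2.2.2.1 + t.2.2.2.2.2 * e5 t.2.1),
    (-t.1, t.2.2.2.1, t.2.2.2.2.2)]

/-- The multiplicities of all cusps in the list of vectors are zero. -/
def Bal0 (E : List (ℤ × ℤ × ℤ)) : Prop :=
  ∀ w ∈ E, ((E.filter fun v => decide (v.2.1 * w.2.2 = v.2.2 * w.2.1)).map fun v => v.1).sum = 0

instance (E : List (ℤ × ℤ × ℤ)) : Decidable (Bal0 E) := by unfold Bal0; infer_instance

/-- The list of paths has the boundary `[u] - [v]`. -/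
def OkPth (u1 u2 v1 v2 : ℤ) (L : List Pth) : Prop :=
  (∀ t ∈ L, t.2.2.1 * t.2.2.2.2.2 - 5 * t.2.2.2.1 * t.2.2.2.2.1 = 1) ∧
  (∀ w ∈ (-1, u1, u2) :: (1, v1, v2) :: endP L, w.2.1 ≠ 0 ∨ w.2.2 ≠ 0) ∧
  Bal0 ((-1, u1, u2) :: (1, v1, v2) :: endP L)

instance (u1 u2 v1 v2 : ℤ) (L : List Pth) : Decidable (OkPth u1 u2 v1 v2 L) := by unfold OkPth; infer_instance

/-- The terms of the path list for the function `F_f`. -/
def pthL (L : List Pth) (f : Fin 2) : List Tm :=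
  (L.filter fun t => decide (t.2.1 = f)).map fun t => (t.1 * eps t.2.2.1 t.2.2.2.1 (5 * t.2.2.2.2.1) t.2.2.2.2.2,
    t.2.2.1, t.2.2.2.1, t.2.2.2.2.1, t.2.2.2.2.2)

/-- PTH (from TRE). Value on a path with given decomposition. Proof: BAL0 for a list `E` of nonzero vectors with multiplicities implies `∑ k H(v) = 0` for every homogeneous function `H` (strong induction on the length: the elements proportional to the
head have the same value `H`, and multiplicities of sum zero; the remaining list satisfies BAL0 again). Apply this to `H(v) = eps(g) G(g v)` (`g` the standard matrix of `(x, y)`); by TRE the term `t` of the list gives `k eps(γ) tr5 γ (F_f)(x, y)`. -/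
def TPth : Prop := ∀ (r s : ℕ) (G : ℤ → ℤ → ZMod 5), SymE 5 r (s + 1) G →
  ∀ (u1 u2 v1 v2 : ℤ) (L : List Pth), OkPth u1 u2 v1 v2 L →
  (edgeE 0 u1 u2 v1 v2 G : Fn5 (5 ^ r) (5 ^ s)) = ∑ f : Fin 2, opL (pthL L f) (pfE G f)

/-- The Hecke row built from the decompositions `D` (of the path `(l 0; 0 1) {v, u}`) and `E j` (of the path `(1 j; 0 l) {v, u}`). -/
def hkL (l : ℤ) (J : List ℤ) (D : List Pth) (E : ℤ → List Pth) (f : Fin 2) : List Tm :=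
  mulL [(1, 1, 0, 0, l)] (pthL D f) ++ J.flatMap fun j => mulL [(eps 1 j 0 l, l, -j, 0, 1)] (pthL (E j) f)

/-- The two lists have the same terms, up to order, cancellation and signs of matrices. -/
def EqT (L L' : List Tm) : Prop := ∀ t ∈ L ++ sclL (-1) L',
  (((L ++ sclL (-1) L').filter fun t' => decide (t'.2 = t.2 ∨
    t'.2 = (-t.2.1, -t.2.2.1, -t.2.2.2.1, -t.2.2.2.2))).map fun t' => t'.1).sum = 0

instance (L L' : List Tm) : Decidable (EqT L L') := by unfold EqT; infer_instance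

/-- HKG (from PTH, HKF, TRM). Rows of a Hecke operator from lists checked by `decide`. Proof: HKF with `J.toFinset`, PTH for every path, `opL (mulL L L') = opL L * opL L'` (TRM, all terms `Gd`), `tr5 γ = op5 γ`; then two lists with `EqT` have the same operator
(strong induction on the length of `L ++ sclL (-1) L'` as in PTH; `op5` of `γ` and `-γ` agree by TRM). -/
def THkG : Prop := ∀ (l : ℕ) (J : List ℤ) (D : Fin 2 → List Pth) (E : Fin 2 → ℤ → List Pth)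
  (T : Fin 2 → Fin 2 → List Tm), l.Prime → l ≠ 5 → l ≠ 2 → J.Nodup → J.length = l →
  (∀ j ∈ J, ∀ j' ∈ J, (l : ℤ) ∣ j - j' → j = j') →
  (∀ i, OkPth l (e5 i) 0 1 (D i)) → (∀ i, ∀ j ∈ J, OkPth (1 + j * e5 i) (l * e5 i) j l (E i j)) →
  (∀ i f, (∀ t ∈ T i f, Gd t) ∧ (∀ t ∈ hkL l J (D i) (E i) f, Gd t) ∧ EqT (hkL l J (D i) (E i) f) (T i f)) →
  ∀ (r s : ℕ) (G : ℤ → ℤ → ZMod 5), SymE 5 r (s + 1) G → ∀ i : Fin 2,
  (pfE (Tl l (2 * 5 ^ r) G) i : Fn5 (5 ^ r) (5 ^ s)) = ∑ f : Fin 2, opL (T i f) (pfE G f)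

/-- The two relations as rows of two lists: `relE ρ f`. -/
def relE : Fin 2 → Fin 2 → List Tm
  | 0, 0 => []
  | 0, 1 => [(1, 1, 0, 0, 1), (-1, 2, -1, 1, -2)]
  | 1, 0 => [(1, 1, 0, 0, 1), (1, 1, 1, 0, 1), (-1, 3, -2, 1, -3), (-1, 3, 1, 1, 2)]
  | 1, 1 => [(-1, 1, 0, 0, 1), (1, 3, -2, 1, -3)]

/-- The rows of `T_3`: `F_i(T_3 G) = ∑_f (T3E i f) F_f(G)`. -/
def T3E : Fin 2 → Fin 2 → List Tm
  | 0, 0 => [(-1, 1, -1, 1, -2), (1, 1, 0, 0, 3), (-1, 1, 0, 1, 3), (-1, 3, -1, 0, 1), (1, 3, 0, 0, 1), (-1, 3, 1, 0, 1)]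
  | 0, 1 => [(1, 1, -1, 1, -2), (-1, 2, -1, 1, -1)]
  | 1, 0 => [(-1, 1, -1, 1, -2), (1, 1, 0, 0, 3), (-1, 1, 0, 1, 3), (1, 1, 1, 0, 3), (1, 2, -3, 1, -6), (1, 2, -1, 1, -1), (-1, 3, 0, 1, 1), (-1, 3, 3, 1, 6)]
  | 1, 1 => [(1, 1, -1, 1, -2), (-1, 1, 1, 0, 3), (-1, 2, -1, 1, -1), (-1, 3, -1, 0, 1)]

/-- The rows of `T_7`. -/
def T7E : Fin 2 → Fin 2 → List Tm
  | 0, 0 => [(1, 1, -2, 1, -3), (1, 1, -1, 2, -3), (-1, 1, -1, 3, -8), (1, 1, 0, -2, 7), (-1, 1, 0, -1, 7), (1, 1, 0, 0, 7), (-1, 1, 0, 1, 7), (1, 1, 0, 2, 7), (-1, 1, 0, 3, 7), (1, 1, 1, -2, -3), (-1, 1, 1, -1, 2), (1, 4, -3, 1, -2), (1, 4, 1, 1, 3), (-1, 7, -3, 0, 1), (1, 7, -2, 0, 1), (-1, 7, -1, 0, 1), (1, 7, 0, 0, 1), (-1, 7, 1, 0, 1), (1, 7, 2, 0, 1), (-1, 7, 3, 0, 1)]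
  | 0, 1 => [(-1, 1, -2, 1, -3), (1, 1, -1, 3, -8), (-1, 2, -1, 1, 1), (1, 3, -2, 1, -1), (-1, 4, -3, 1, -2), (1, 7, -3, 0, 1)]
  | 1, 0 => [(1, 1, -2, 1, -3), (1, 1, -1, 2, -3), (-1, 1, -1, 3, -8), (1, 1, 0, -2, 7), (-1, 1, 0, -1, 7), (1, 1, 0, 0, 7), (-1, 1, 0, 1, 7), (1, 1, 0, 2, 7), (-1, 1, 0, 3, 7), (1, 1, 1, -2, -3), (-1, 1, 1, -1, 2), (1, 1, 3, 0, 7), (1, 2, -7, 1, -14), (1, 2, -1, 1, 1), (-1, 3, -2, 1, -1), (-1, 3, 7, 1, 14), (-1, 7, -7, 3, -14), (-1, 7, 0, 3, 1), (1, 8, -1, 3, -1), (1, 8, 7, 3, 14), (-1, 13, -6, 5, -11), (-1, 13, 7, 5, 14)]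
  | 1, 1 => [(1, 1, -1, 3, -8), (-1, 1, 3, 0, 7), (-1, 2, -1, 1, 1), (1, 3, -2, 1, -1), (-1, 4, -3, 1, -2), (1, 7, -2, 0, 1), (1, 11, -2, 4, -3), (1, 13, -6, 5, -11)]

/-- Decompositions for `T_3`, `J = [-1, 0, 1]`: the path `(3 0; 0 1) {0, 1/e_i}`. -/
def D3E : Fin 2 → List Pth
  | 0 => [(1, 0, 1, 0, 0, 1)]
  | 1 => [(1, 0, 1, 0, 0, 1), (-1, 0, 1, 1, 0, 1), (1, 1, 1, 1, 0, 1)]

/-- Decompositions for `T_3`: the path `(1 j; 0 3) {0, 1/e_i}`. -/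
def E3E (i : Fin 2) (j : ℤ) : List Pth :=
  if i = 0 then
    if j = -1 then [(1, 0, 1, 0, 0, 1), (-1, 1, 1, 0, -1, 1)]
    else if j = 0 then [(1, 0, 1, 0, 0, 1)]
    else [(1, 0, 1, 0, 0, 1), (-1, 0, 2, -1, 1, -2), (1, 0, 2, 1, 1, 3), (1, 1, 2, -1, 1, -2)]
  else
    if j = -1 then [(-1, 0, 1, -1, -1, 6), (1, 0, 1, 0, -1, 1), (-1, 1, 1, 0, -1, 1)]
    else if j = 0 then [(1, 0, 1, 0, 1, 1), (-1, 0, 1, 1, 1, 6)]
    else [(-1, 0, 2, -1, 1, -2), (1, 0, 2, 1, 1, 3), (1, 1, 1, 0, 0, 1), (1, 1, 2, -1, 1, -2)]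

/-- Decompositions for `T_7`, `J = [-3, -2, -1, 0, 1, 2, 3]`: the path `(7 0; 0 1) {0, 1/e_i}`. -/
def D7E : Fin 2 → List Pth
  | 0 => [(1, 0, 1, 0, 0, 1)]
  | 1 => [(1, 0, 1, 0, 0, 1), (-1, 0, 1, 3, 0, 1), (1, 1, 1, 3, 0, 1)]

/-- Decompositions for `T_7`: the path `(1 j; 0 7) {0, 1/e_i}`. -/
def E7E (i : Fin 2) (j : ℤ) : List Pth :=
  if i = 0 then
    if j = -3 then [(1, 0, 1, 0, 0, 1), (-1, 0, 2, -1, -1, 3), (1, 0, 2, 3, -1, -7), (1, 1, 2, -1, -1, 3)]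
    else if j = -2 then [(1, 0, 1, 0, 0, 1), (1, 0, 3, -2, -2, 7), (-1, 0, 3, 1, -2, -3), (-1, 1, 1, 0, -1, 1)]
    else if j = -1 then [(1, 0, 1, 0, 0, 1), (-1, 0, 2, -1, -3, 8), (1, 0, 2, 1, -3, -7), (1, 1, 2, -1, -3, 8)]
    else if j = 0 then [(1, 0, 1, 0, 0, 1)]
    else if j = 1 then [(1, 0, 1, 0, 0, 1), (-1, 1, 1, 0, 1, 1)]
    else if j = 2 then [(1, 0, 1, 0, 0, 1), (-1, 0, 2, -1, 1, -2), (1, 0, 2, 1, 1, 3), (-1, 0, 3, -1, 2, -3), (1, 0, 3, 2, 2, 7), (1, 1, 2, -1, 1, -2)]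
    else [(1, 0, 1, 0, 0, 1), (1, 0, 2, -3, 1, -7), (-1, 0, 2, -1, 1, -2), (-1, 1, 1, 0, 0, 1)]
  else
    if j = -3 then [(-1, 0, 2, -1, -1, 3), (1, 0, 2, 3, -1, -7), (1, 1, 7, -1, -4, 3)]
    else if j = -2 then [(1, 0, 1, 0, -1, 1), (-1, 0, 1, 3, -1, -14), (1, 0, 3, -2, -2, 7), (-1, 0, 3, 1, -2, -3), (-1, 1, 1, 0, -1, 1)]
    else if j = -1 then [(1, 0, 1, 0, -3, 1), (-1, 0, 1, 1, -3, -14), (-1, 0, 2, -1, -3, 8), (1, 0, 2, 1, -3, -7), (1, 1, 2, -1, -3, 8)]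
    else if j = 0 then [(-1, 0, 1, -1, 3, -14), (1, 0, 1, 0, 3, 1)]
    else if j = 1 then [(-1, 0, 1, -3, 1, -14), (1, 0, 1, 0, 1, 1), (-1, 1, 1, 0, 1, 1)]
    else if j = 2 then [(-1, 0, 3, -1, 2, -3), (1, 0, 3, 2, 2, 7), (1, 0, 9, -4, 5, -11), (-1, 0, 9, 5, 5, 14), (1, 1, 1, 0, 0, 1), (1, 1, 2, -1, 1, -2), (-1, 1, 9, -4, 5, -11)]
    else [(1, 0, 2, -3, 1, -7), (-1, 0, 2, -1, 1, -2)]

/-- HK3. The rows of `T_3`: HKG with `l = 3`, `J = [-1, 0, 1]`, `D3E`, `E3E`, all conditions by `decide` (or `fin_cases` and `decide`). -/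
def THk3 : Prop := ∀ (r s : ℕ) (G : ℤ → ℤ → ZMod 5), SymE 5 r (s + 1) G → ∀ i : Fin 2,
  (pfE (Tl 3 (2 * 5 ^ r) G) i : Fn5 (5 ^ r) (5 ^ s)) = ∑ f : Fin 2, opL (T3E i f) (pfE G f)

/-- HK7. The rows of `T_7`: HKG with `l = 7`, `J = [-3, -2, -1, 0, 1, 2, 3]`, `D7E`, `E7E`. -/
def THk7 : Prop := ∀ (r s : ℕ) (G : ℤ → ℤ → ZMod 5), SymE 5 r (s + 1) G → ∀ i : Fin 2,
  (pfE (Tl 7 (2 * 5 ^ r) G) i : Fn5 (5 ^ r) (5 ^ s)) = ∑ f : Fin 2, opL (T7E i f) (pfE G f)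

/-! ### The three operators -/

/-- The operator `T_3² + 1`. -/
def UoE {R : Type} [AddCommGroup R] (m : ℤ) (G : ℤ → ℤ → R) : ℤ → ℤ → R :=
  Tl 3 m (Tl 3 m G) + G

/-- The operator `T_7² - 2 T_3 T_7 - 2`. -/
def VoE {R : Type} [AddCommGroup R] (m : ℤ) (G : ℤ → ℤ → R) : ℤ → ℤ → R :=
  Tl 7 m (Tl 7 m G) - (2 : ℤ) • Tl 3 m (Tl 7 m G) - (2 : ℤ) • G

/-- The operator `T_3² - T_3 - 1`. -/
def OoE {R : Type} [AddCommGroup R] (m : ℤ) (G : ℤ → ℤ → R) : ℤ → ℤ → R :=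
  Tl 3 m (Tl 3 m G) - Tl 3 m G - G

/-- The value of the symbol of `G` at `(T_3² - T_3 - 1)^c (T_3² + 1)^i (T_7² - 2 T_3 T_7 - 2)^j {0, ∞}`. -/
def evE {R : Type} [AddCommGroup R] (m : ℤ) (G : ℤ → ℤ → R) (c i j : ℕ) : R :=
  ((OoE m)^[c] ((UoE m)^[i] ((VoE m)^[j] G))) 1 0 - ((OoE m)^[c] ((UoE m)^[i] ((VoE m)^[j] G))) 0 1

/-- The rows of `T_3² + 1`. -/
def ULE (i f : Fin 2) : List Tm := mmL T3E T3E i f ++ idL 1 i f

/-- The rows of `T_7² - 2 T_3 T_7 - 2`. -/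
def VLE (i f : Fin 2) : List Tm := mmL T7E T7E i f ++ sclL (-2) (mmL T3E T7E i f) ++ idL (-2) i f

/-- The first row of `T_3² - T_3 - 1`. -/
def OLE (f : Fin 2) : List Tm := mmL T3E T3E 0 f ++ sclL (-1) (T3E 0 f) ++ idL (-1) 0 f

/-- Multipliers of the relations for `T_3² + 1`: `mUE i ρ`. -/
def mUE : Fin 2 → Fin 2 → List Tm
  | 0, 0 => [(-2, 2, -1, -1, -3), (-2, 3, -1, -1, -2), (1, 1, 1, -1, 1)]
  | 0, 1 => [(1, 2, -1, -1, -2), (1, 1, 0, 1, 1), (-1, 2, -1, 1, 2)]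
  | 1, 0 => [(1, 2, -1, -1, -3)]
  | 1, 1 => [(-2, 2, 1, 1, -3), (2, 3, 1, 0, 3)]

/-- Multipliers of the relations for `T_7² - 2 T_3 T_7 - 2`: `mVE i ρ`. -/
def mVE : Fin 2 → Fin 2 → List Tm
  | 0, 0 => [(-1, 2, 1, 2, -3), (1, 4, 3, 0, -6), (-2, 2, 0, -2, 2), (2, 6, -3, 1, 1), (-1, 3, -2, -3, 2), (-2, 1, 0, -2, -6), (-2, 6, -1, -2, 6), (-2, 6, -1, 2, -4), (-2, 6, 1, -1, 6), (1, 3, -3, 0, 2), (2, 3, 1, 1, -2), (-2, 6, 3, -3, -4), (-1, 2, 1, 1, 2), (1, 1, -2, -1, 1), (1, 2, 0, 0, -2), (-1, 6, 3, -2, -6), (-2, 6, -3, -1, 6), (-1, 6, 0, -3, -4), (-1, 2, -2, 1, -2), (2, 4, -2, 1, -4)]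
  | 0, 1 => [(1, 6, 1, -2, 1), (-1, 1, -2, 1, -6), (1, 4, -2, 3, 1), (-1, 4, -2, -1, -1), (-1, 3, 2, -3, 3), (1, 3, 2, -1, 3), (1, 4, -1, -2, 6), (-1, 1, 3, 0, -4), (1, 6, 1, 0, -6), (-2, 6, 0, 1, -1), (-2, 6, 0, 1, -4), (-2, 1, 1, -2, 6), (-1, 4, 1, 3, 4), (2, 4, -1, -3, 4), (2, 1, -2, 0, -1), (2, 2, 0, -3, 2), (1, 6, 1, -3, -4), (1, 3, -3, 3, -2), (1, 4, 3, -2, -6), (1, 6, 0, -1, -4), (1, 6, -2, -3, -1), (-2, 2, 1, 3, 3)]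
  | 1, 0 => [(-2, 2, 0, 3, 3), (2, 2, -1, -3, 2), (-2, 1, -3, -2, 4), (-2, 1, -1, -1, 1), (-2, 1, 0, 1, 6), (1, 2, -2, 2, 2), (1, 1, -1, 1, -4), (-2, 6, 3, 0, 1), (-2, 2, 3, 0, -3), (-2, 3, 3, -1, -3), (-2, 3, 3, 1, 3), (-2, 4, 1, -1, 6), (2, 3, -2, 3, 3)]
  | 1, 1 => [(2, 4, 1, 1, 1), (1, 4, -2, -3, 6), (1, 6, 3, 0, 4), (-1, 4, 0, 1, -4), (-1, 1, -1, 1, -4), (2, 2, 1, 1, 3), (1, 6, 3, 2, 6), (-1, 3, 2, -1, 2), (-1, 3, -3, -3, 3), (-1, 4, -3, -2, 1), (-1, 4, -3, 1, -1), (2, 4, -3, 0, -4), (-2, 1, -3, 0, -6), (-1, 4, -2, 1, 4)]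

/-- `T_3² + 1` minus multiples of the relations. -/
def BUE (i f : Fin 2) : List Tm :=
  ULE i f ++ sclL (-1) (mulL (mUE i 0) (relE 0 f)) ++ sclL (-1) (mulL (mUE i 1) (relE 1 f))

/-- `T_7² - 2 T_3 T_7 - 2` minus multiples of the relations. -/
def BVE (i f : Fin 2) : List Tm :=
  VLE i f ++ sclL (-1) (mulL (mVE i 0) (relE 0 f)) ++ sclL (-1) (mulL (mVE i 1) (relE 1 f))

/-- The first row of `T_3² - T_3 - 1` minus multiples of the relations. -/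
def BOE (f : Fin 2) : List Tm :=
  OLE f ++ sclL (-1) (mulL [(1, 2, 0, 0, -2)] (relE 0 f)) ++ sclL (-1) (mulL [(3, 1, -1, 0, 1)] (relE 1 f))

/-- The leading operator of `T_7² - 2 T_3 T_7 - 2`. -/
def LoE {q q' : ℕ} : Module.End (ZMod 5) (Fn5 q q') := (4 : ZMod 5) • (dX * dY * (dX ^ 4 + dY ^ 4))

/-- The leading operator of `T_3² - T_3 - 1` at the origin in degree 2. -/
def MoE {q q' : ℕ} : Module.End (ZMod 5) (Fn5 q q') := (3 : ZMod 5) • (dX ^ 2 + dY ^ 2)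

/-! ### Certificates (finite computations) -/

/-- CEG. All terms are good. -/
def TCeG : Prop := ∀ i f : Fin 2, (∀ t ∈ T3E i f, Gd t) ∧ (∀ t ∈ T7E i f, Gd t) ∧ (∀ t ∈ relE i f, Gd t) ∧
  (∀ t ∈ mUE i f, Gd t) ∧ (∀ t ∈ mVE i f, Gd t)

/-- CEU. The coefficients of `T_3² + 1` (lists of 65, 32, 88, 39 terms; `w = 0`, not `2`, in the exceptional coefficient). Model: `Pool/Agent/Helper14/W5/M_Cert.lean`. -/
def TCeU : Prop :=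
  (∀ f : Fin 2, ∀ w : Fin 4, ∀ t ∈ M7, t.1 + 4 * t.2.1 + t.2.2 ≤ 2 → (5 : ℤ) ∣ cS (BUE 0 f) w t.1 t.2.1 t.2.2 -
    (if f = 0 ∧ w = 0 ∧ t = (1, 0, 1) then 2 else 0)) ∧
  (∀ f : Fin 2, ∀ w : Fin 4, ∀ t ∈ M7, t.1 + 4 * t.2.1 + t.2.2 ≤ 1 → (5 : ℤ) ∣ cS (BUE 1 f) w t.1 t.2.1 t.2.2)

/-- CEV. The coefficients of `T_7² - 2 T_3 T_7 - 2`, row `0` (lists of 785 and 304 terms). -/
def TCeV0 : Prop := ∀ f : Fin 2, ∀ w : Fin 4, ∀ t ∈ M7, (5 : ℤ) ∣ cS (BVE 0 f) w t.1 t.2.1 t.2.2 -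
    (if f = 0 ∧ w = 0 ∧ (t = (1, 0, 5) ∨ t = (5, 0, 1)) then 4 else 0)

/-- CEV1. The coefficients of `T_7² - 2 T_3 T_7 - 2`, row `1` (lists of 920 and 331 terms). -/
def TCeV1 : Prop := ∀ f : Fin 2, ∀ w : Fin 4, ∀ t ∈ M7, t.1 + 4 * t.2.1 + t.2.2 ≤ 5 → (5 : ℤ) ∣ cS (BVE 1 f) w t.1 t.2.1 t.2.2

/-- CEO. The coefficients of `T_3² - T_3 - 1` at the origin. -/
def TCeO : Prop := ∀ f : Fin 2, ∀ i < 3, ∀ j < 3, i + j ≤ 2 → (5 : ℤ) ∣ nS (BOE f) i j -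
    (if f = 0 ∧ ((i = 2 ∧ j = 0) ∨ (i = 0 ∧ j = 2)) then 3 else 0)

/-! ### Leading forms -/

/-- LDU (from TRM, LOW0, NFA, EXP, CEG, CEU). Leading forms of `T_3² + 1`, for `F0`, `F1` of degree at most `d` satisfying the relations. `RelE F` says `∑_f opL (relE ρ f) (F f) = 0`; `opL (mulL L L') = opL L * opL L'` (TRM, all terms `Gd`), `opL (sclL n L) = n • opL L`.
So modulo the relations the rows are the lists `BUE`, and EXP with the certificates gives the leading forms: `oW w (oB-1)^i (oD-1)^k (oA-1)^j` lowers by `i + 4k + j`; row `0`: on `F0` `2 • (oB - 1) * (oA - 1)` (`oW 0 = 1`) plus weight at least `3`, on `F1` weight at least `3`;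
`oB - 1 ≡ dY`, `oA - 1 ≡ dX` up to lowering by `3` (NFA). Row `1`: weight at least `2`. Model: `Pool/Agent/Helper99/W5/M_Ld.lean`. (`d` may be any integer.) -/
def TLdU : Prop := ∀ (r s : ℕ) (d : ℤ) (F : Fin 2 → Fn5 (5 ^ r) (5 ^ s)), RelE F → F 0 ∈ Wd5 d → F 1 ∈ Wd5 d →
  (∑ f : Fin 2, opL (ULE 0 f) (F f)) - Qo (F 0) ∈ Wd5 (d - 3) ∧ (∑ f : Fin 2, opL (ULE 1 f) (F f)) ∈ Wd5 (d - 2)

/-- LDV (from TRM, LOW0, NFA, EXP, CEG, CEV, CEV1). Leading forms of `T_7² - 2 T_3 T_7 - 2`: row `0` of `BVE` is `4 (oB-1)(oA-1)^5 + 4 (oB-1)^5(oA-1)` on `F0` plus terms which lower by `7`, row `1` lowers by `6`. As LDU. -/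
def TLdV : Prop := ∀ (r s : ℕ) (d : ℤ) (F : Fin 2 → Fn5 (5 ^ r) (5 ^ s)), RelE F → F 0 ∈ Wd5 d → F 1 ∈ Wd5 d →
  (∑ f : Fin 2, opL (VLE 0 f) (F f)) - LoE (F 0) ∈ Wd5 (d - 7) ∧ (∑ f : Fin 2, opL (VLE 1 f) (F f)) ∈ Wd5 (d - 6)

/-- OM (from TRM, LOW0, CEG, CEO). The value at the origin, degree at most `2`. `dX^5 F = 0 = dY^5 F`, so `F` has periods `5`, so `(op5 a b c d F)(0,0) = F(b/a, c/d) = F(x, y)` with the natural numbers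
`x = (b a³) % 5`, `y = (c d³) % 5`, and `F(x, y) = ∑_{i + j ≤ 2} (x choose i)(y choose j) (dX^i dY^j F)(0,0)`. As in LDU, `∑_f opL (OLE f) (F f) = ∑_f opL (BOE f) (F f)`. Model: `Pool/Agent/Helper53/W5/M_Om.lean`. -/
def TOm : Prop := ∀ (r s : ℕ) (F : Fin 2 → Fn5 (5 ^ r) (5 ^ s)), RelE F → F 0 ∈ Wd5 2 → F 1 ∈ Wd5 2 →
  (∑ f : Fin 2, opL (OLE f) (F f)) 0 0 = MoE (F 0) 0 0

/-- LED (from TRM, LOW0, NFA, LW1, BB). Solutions of the relations with given leading form, `al + be` even. With `m = bb5 al be` put `F1 = 3 (m + τ2 m)`, `k = 3 (m + τ3 m)`, `F0 = 3 ∑_{i < h} (-1)^i T^i (F1 + k)`, `h = 5^(r+s)` (odd, `T^h = (1 h; 0 1)` acts trivially because `5^r ∣ h`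
and `5^s ∣ h`; `T = op5 1 1 0 1 = oA`), so `F0 + T F0 = 3 (1 + T^h) (F1 + k) = 6 (F1 + k) = F1 + k`. `RelE`: `τ2² = -1`, `τ3² = -1` act trivially, so `τ2 F1 = F1`, `τ3 k = k`, `k = F0 + T F0 - F1` (`op5 3 1 1 2 F0 = τ3 T F0`). Degrees: LW1 (even degree): `F1 ≡ 6 m = m`, `k ≡ m` modulo
degree `al + be - 1`; `2 F0 = (F0 + T F0) - (T - 1) F0`, `F0` has degree at most `al + be`, `T - 1 = oA - 1` lowers by `1`: `2 F0 ≡ F1 + k ≡ 2 m`. Model (easier here, no SUR): `Pool/Agent/Helper80/W5/M_Led.lean`. -/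
def TLed : Prop := ∀ (r s al be : ℕ), al < 5 ^ r → be < 5 ^ s → Even (al + be) →
  ∃ F : Fin 2 → Fn5 (5 ^ r) (5 ^ s), RelE F ∧ F 0 - bb5 al be ∈ Wd5 ((al : ℤ) + be - 1) ∧
    F 1 ∈ Wd5 ((al : ℤ) + be)

/-- ITR (from REL, HKB, HK3, HK7, LOW0, LDU, LDV, OM). Iteration. For a symbol `G` modulo 5 of level `(r, s+1)` with `F0(G), F1(G) ∈ Wd5 d`, and `m = 2 * 5^r`. Proof: `T_l` preserves symbols (HKB), so `UoE m G`, `VoE m G` are symbols (`SymE.add` etc.), with the functions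
`∑_f opL (ULE i f) F_f(G)`, `∑_f opL (VLE i f) F_f(G)` (HK3, HK7 twice; `opL (mmL ..)`), and LD applies with `d - 2`, `d - 6` (`F0(UoE G) ≡ Qo F0(G)` modulo `Wd5 (d-3)`, `F0(VoE G) ≡ LoE F0(G)` modulo `Wd5 (d-7)`). The functions of `(UoE m)^i (VoE m)^j G` have degrees
`d' = d - 2i - 6j`, and `F0 ≡ Qo^i LoE^j F0(G)` modulo `Wd5 (d' - 1)`. `evE m G c i j` is the value at `(0,0)` of `F0` of `(OoE m)^c (UoE m)^i (VoE m)^j G` (the standard matrix of `(0,0)` is `1`, `eps = 1`); for `c = 1` use OM if `d' ≤ 2` (`MoE` kills `Wd5 1`). Model: `Pool/Agent/Helper24/W5/M_Itr.lean`. -/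
def TItr : Prop := ∀ (r s : ℕ) (G : ℤ → ℤ → ZMod 5) (d : ℕ), SymE 5 r (s + 1) G →
  (pfE G 0 : Fn5 (5 ^ r) (5 ^ s)) ∈ Wd5 (d : ℤ) → (pfE G 1 : Fn5 (5 ^ r) (5 ^ s)) ∈ Wd5 (d : ℤ) →
  ∀ i j : ℕ,
  (d < 2 * i + 6 * j → evE (2 * 5 ^ r) G 0 i j = 0) ∧
  (2 * i + 6 * j = d → evE (2 * 5 ^ r) G 0 i j =
    ((Qo ^ i * LoE ^ j : Module.End (ZMod 5) (Fn5 (5 ^ r) (5 ^ s))) (pfE G 0)) 0 0) ∧
  (d < 2 * i + 6 * j + 2 → evE (2 * 5 ^ r) G 1 i j = 0) ∧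
  (2 * i + 6 * j + 2 = d → evE (2 * 5 ^ r) G 1 i j =
    ((MoE * Qo ^ i * LoE ^ j : Module.End (ZMod 5) (Fn5 (5 ^ r) (5 ^ s))) (pfE G 0)) 0 0)

/-- TRI (from LOW0, BB, LED, EX, ITR). Triangular system of symbols modulo 5. For `(c, i, j)`, `c ≤ 1`, put `al = i + 2c + 5j < 5^r`, `be = i + j < 5^s` (`al + be = 2c + 2i + 6j`), take LED and the symbol `G` of EX. By ITR `evE G c' i' j' = 0` if
`2i' + 6j' + 2c' > 2i + 6j + 2c`; in case of equality it is, up to a nonzero constant, `((dX² + dY²)^c' (dX dY)^(i'+j') (dX⁴ + dY⁴)^j' bb5 al be)(0,0)`: the coefficient of `dX^al dY^be`. All monomials `dX^a dY^b` of this polynomial have `a - b ≡ 2c'` modulo `4` and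
`b ≥ i' + j'`; `al - be = 2c + 4j ≡ 2c`: so it vanishes if `c' ≠ c` or `i' + j' > i + j`, and is `1` for `(c', i', j') = (c, i, j)` (the term `dX^(2c + 4j)` of the outer factors). Terms of lower degree are killed. Model: `Pool/Agent/Helper33/W5/M_Tri.lean`. -/
def TTri : Prop := ∀ (r s c i j : ℕ), c ≤ 1 → i + 5 * j + 2 * c < 5 ^ r → i + j < 5 ^ s →
  ∃ G : ℤ → ℤ → ZMod 5, SymE 5 r (s + 1) G ∧ evE (2 * 5 ^ r) G c i j ≠ 0 ∧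
    ∀ c' i' j' : ℕ, c' ≤ 1 → evE (2 * 5 ^ r) G c' i' j' ≠ 0 →
      (2 * i' + 6 * j' + 2 * c' < 2 * i + 6 * j + 2 * c ∨
        (2 * i' + 6 * j' + 2 * c' = 2 * i + 6 * j + 2 * c ∧ c' = c ∧ i' + j' ≤ i + j))

/-- LIFP (from TRM). Lifting solutions of the relations to integers, `h = 5^(r+s)` as in LED. Let `a`, `b` be integral lifts of `-f1` and `-k`, `k = f0 + T f0 - f1` modulo 5; put `F1 = 2 (a + τ2 a)`, `K = 2 (b + τ3 b)`, `F0 = ∑_{i < h} (-1)^i T^i (a + τ2 a + b + τ3 b)`. Then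
`F0 + T F0 = (1 + T^h) (...) = 2 (...) = F1 + K`, so `RelE F` over `ℤ` (`τ2² = τ3² = -1` act trivially). Modulo 5: `τ2 f1 = f1`, so `F1 ≡ -4 f1 = f1`, `K ≡ k`; `F0 + T F0 ≡ f0 + T f0`, and `1 + T` is injective modulo 5 (`∑_{i<h} (-1)^i T^i (1 + T) = 1 + T^h = 2`). No connectedness argument is needed here. -/
def TLifp : Prop := ∀ (r s : ℕ) (f : Fin 2 → Fn5 (5 ^ r) (5 ^ s)), RelE f →
  ∃ F : Fin 2 → ZMod (5 ^ r) → ZMod (5 ^ s) → ℤ, RelE F ∧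
    ∀ i x y, ((F i x y : ℤ) : ZMod 5) = f i x y

/-- LIF (from REL, LIFP, EX, UNI). Lifting symbols: every symbol `g` modulo 5 lifts to an integral symbol `G` with the same
`evE` modulo 5. Proof: REL, LIFP, EX over `ℤ`; the reduction of `G` is a symbol with the same two functions as
`g`, so by UNI it equals `g` up to a constant; `evE` commutes with reduction. Model: `Pool/Agent/Helper78/W5/M_Lif.lean`. -/
def TLif : Prop := ∀ (r s : ℕ) (g : ℤ → ℤ → ZMod 5), SymE 5 r (s + 1) g →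
  ∃ G : ℤ → ℤ → ℤ, SymE 5 r (s + 1) G ∧
    ∀ c i j : ℕ, ((evE (2 * 5 ^ r) G c i j : ℤ) : ZMod 5) = evE (2 * 5 ^ r) g c i j

/-- UNB. Back to `Γ₀(5^n)` and to complex values: if `G` is an integral symbol of level `(r, s)` then
`G0(p,q) = G(5^r p, q)` (as complex numbers) is a symbol of level `(0, r+s)` with `evE 2 G0 = evE (2 * 5^r) G` (`Tl l 2 G0 (p,q) = Tl l (2 * 5^r) G (5^r p, q)`; `(a 5^r b; 5^s c d) ≡ (a b; 5^(r+s) c d)` modulo `2`). Model: `Pool/Agent/Helper62/W5/M_Unb.lean`. -/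
def TUnb : Prop := ∀ (r s : ℕ) (G : ℤ → ℤ → ℤ), SymE 5 r s G →
  SymE 5 0 (r + s) (fun p q => ((G (5 ^ r * p) q : ℤ) : ℂ)) ∧
    ∀ c i j : ℕ, evE 2 (fun p q => ((G (5 ^ r * p) q : ℤ) : ℂ)) c i j = ((evE (2 * 5 ^ r) G c i j : ℤ) : ℂ)

/-- CNT. Counting the index sets. `DDE 2 ddE5 (2k) = t² + t`, `DDE 2 ddE5 (2k+1) = 5t² + 3t` with `t = 5^(k-1)` (`k ≥ 1`; induction: `2, 8, 30, 140`). First set: the first condition follows from the second (`i + 5j + 2c ≤ 5(t-1) + 2`): `c = 0, 1`: `t(t+1)/2` each. Second set: the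
second condition follows from the first; `c = 0`: `∑_{j<t} (5t - 5j) = 5t(t+1)/2`, `c = 1`: `∑_{j<t} (5t - 2 - 5j) = 5t(t+1)/2 - 2t`. Model: `Pool/Agent/Helper83/W5/M_Cnt.lean`. -/
def TCnt : Prop :=
  (∀ k : ℕ, 1 ≤ k → ((Finset.range 2 ×ˢ Finset.range (5 ^ k) ×ˢ Finset.range (5 ^ k)).filter
    fun t : ℕ × ℕ × ℕ => t.2.1 + 5 * t.2.2 + 2 * t.1 < 5 ^ k ∧ t.2.1 + t.2.2 < 5 ^ (k - 1)).card = DDE 2 ddE5 (2 * k)) ∧
  (∀ k : ℕ, 1 ≤ k → ((Finset.range 2 ×ˢ Finset.range (5 ^ k) ×ˢ Finset.range (5 ^ k)).filter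
    fun t : ℕ × ℕ × ℕ => t.2.1 + 5 * t.2.2 + 2 * t.1 < 5 ^ k ∧ t.2.1 + t.2.2 < 5 ^ k).card = DDE 2 ddE5 (2 * k + 1))

/-- LB from TRI, LIF, UNB, CNT. For `n = 2k` (`k ≥ 1`) use `(r,s) = (k,k-1)`, for `n = 2k+1` use
`(r,s) = (k,k)`: level `(r, s+1)`. The matrix `M (κ, (c,i,j)) = evE G_κ c i j` (`κ`, `(c,i,j)` in the index set of CNT) is integral, and modulo 5 its rows are
linearly independent: in a relation `∑ x_κ M(κ,·) = 0` take `κ0` maximal with `x_{κ0} ≠ 0` for the order (`2i + 6j + 2c`, then `i + j`); the column `κ0` gives `x_{κ0} = 0` (a nonzero `M(κ, κ0)` with `x_κ ≠ 0` has equal degrees, `c_κ = c_{κ0}`, equal `i + j`, so `κ = κ0`). So its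
determinant is prime to `5`, nonzero in `ℂ`. If a combination `H` of the `G_κ` (complex, level `(0, n)`) is killed by all words (`evLE 5 H = 0`, that is `evw 2 ls H = 0` for `OkE 5 ls`) then `evE 2 H c i j = 0`: the set of all `K` with `evw 2 ls K = 0` for all
words is stable under `Tl 3 2`, `Tl 7 2` (`Tw 2 ls (Tl l 2 K) = Tw 2 (ls ++ [l]) K`), sums and integer multiples. So the vectors `evLE 5 (G_κ)` are independent. Model: `Pool/Agent/Helper37/W5/M_LBof.lean`. -/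
def TLBof : Prop := TTri → TLif → TUnb → TCnt → LBE 5 2 ddE5

end Pool.Agent.Helper4.TL
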