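import Pool.Agent.Helper14.W5.StB

/-!
# Project TL (levels `4 p^n`): the sign character and symbols with values twisted by it

`eps M` is the sign of the integral matrix `M` of odd determinant modulo `2`, an element of `GL₂(𝔽₂) = S₃`. A newform `f` of level `4 p^n` (`p` odd) gives the
potential `G(p, q) = I(p, 2q)` (variable `x = 2z`), which satisfies `G∘γ ≈ eps(γ) G` for `γ` in `Γ₀(p^n)`. All representatives (Hecke operators, translations) are chosen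
congruent to the identity modulo `2`, so their sign is `+1`: the Hecke operator of level `(r, s)` is `Tl l (2 p^r)`.
-/

set_option autoImplicit false

namespace Pool.Agent.Helper4.TL

open Pool.Agent.Helper14.CV (Homog EqC act Tl)
open Pool.Agent.Helper28.WK (Tw evw)

/-- The sign character of `GL₂(𝔽₂)`, on integral matrices `(a b; c d)` of odd determinant: `-1` for the transpositions `(0 1; 1 0)`, `(1 1; 0 1)`, `(1 0; 1 1)`. -/
def eps (a b c d : ℤ) : ℤ := if (a + d) % 2 = 0 ∧ ¬ (b % 2 = 0 ∧ c % 2 = 0) then -1 else 1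

/-- Words with primes different from `2` and `p`. -/
def OkE (p : ℕ) (ls : List ℕ) : Prop := ∀ l ∈ ls, l.Prime ∧ l ≠ p ∧ l ≠ 2

theorem eps_cases (a b c d : ℤ) : eps a b c d = 1 ∨ eps a b c d = -1 := by
  unfold eps; split_ifs <;> simp

theorem eps_sq (a b c d : ℤ) : eps a b c d * eps a b c d = 1 := by
  rcases eps_cases a b c d with h | h <;> rw [h] <;> norm_num

/-- `eps` depends only on the entries modulo `2`. -/
theorem eps_mod {a b c d a' b' c' d' : ℤ} (ha : (2 : ℤ) ∣ a - a') (hb : (2 : ℤ) ∣ b - b') (hc : (2 : ℤ) ∣ c - c')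
    (hd : (2 : ℤ) ∣ d - d') : eps a b c d = eps a' b' c' d' := by
  have h : ((a + d) % 2 = 0 ∧ ¬ (b % 2 = 0 ∧ c % 2 = 0)) ↔ ((a' + d') % 2 = 0 ∧ ¬ (b' % 2 = 0 ∧ c' % 2 = 0)) := by
    omega
  unfold eps
  by_cases h' : (a + d) % 2 = 0 ∧ ¬ (b % 2 = 0 ∧ c % 2 = 0)
  · rw [if_pos h', if_pos (h.1 h')]
  · rw [if_neg h', if_neg (mt h.2 h')]

private theorem rep2 (a : ℤ) : ∃ a' : Fin 2, (2 : ℤ) ∣ a - ((a'.val : ℕ) : ℤ) := by
  rcases Int.emod_two_eq_zero_or_one a with h | h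
  · exact ⟨0, by simp; omega⟩
  · exact ⟨1, by simp; omega⟩

private theorem mul_fin : ∀ a b c d a' b' c' d' : Fin 2,
    (((a.val : ℕ) : ℤ) * ((d.val : ℕ) : ℤ) - ((b.val : ℕ) : ℤ) * ((c.val : ℕ) : ℤ)) % 2 ≠ 0 →
    (((a'.val : ℕ) : ℤ) * ((d'.val : ℕ) : ℤ) - ((b'.val : ℕ) : ℤ) * ((c'.val : ℕ) : ℤ)) % 2 ≠ 0 →
    eps (((a.val : ℕ) : ℤ) * ((a'.val : ℕ) : ℤ) + ((b.val : ℕ) : ℤ) * ((c'.val : ℕ) : ℤ))
      (((a.val : ℕ) : ℤ) * ((b'.val : ℕ) : ℤ) + ((b.val : ℕ) : ℤ) * ((d'.val : ℕ) : ℤ))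
      (((c.val : ℕ) : ℤ) * ((a'.val : ℕ) : ℤ) + ((d.val : ℕ) : ℤ) * ((c'.val : ℕ) : ℤ))
      (((c.val : ℕ) : ℤ) * ((b'.val : ℕ) : ℤ) + ((d.val : ℕ) : ℤ) * ((d'.val : ℕ) : ℤ)) =
    eps ((a.val : ℕ) : ℤ) ((b.val : ℕ) : ℤ) ((c.val : ℕ) : ℤ) ((d.val : ℕ) : ℤ) *
      eps ((a'.val : ℕ) : ℤ) ((b'.val : ℕ) : ℤ) ((c'.val : ℕ) : ℤ) ((d'.val : ℕ) : ℤ) := by
  decide

private theorem dvd_mul_sub {x y x' y' : ℤ} (h : (2 : ℤ) ∣ x - x') (h' : (2 : ℤ) ∣ y - y') :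
    (2 : ℤ) ∣ x * y - x' * y' := by
  have e : x * y - x' * y' = (x - x') * y + x' * (y - y') := by ring
  rw [e]
  exact dvd_add (Dvd.dvd.mul_right h _) (Dvd.dvd.mul_left h' _)

private theorem dvd_lin {x y z w x' y' z' w' : ℤ} (hx : (2 : ℤ) ∣ x - x') (hy : (2 : ℤ) ∣ y - y')
    (hz : (2 : ℤ) ∣ z - z') (hw : (2 : ℤ) ∣ w - w') : (2 : ℤ) ∣ (x * y + z * w) - (x' * y' + z' * w') := by
  have e : (x * y + z * w) - (x' * y' + z' * w') = (x * y - x' * y') + (z * w - z' * w') := by ring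
  rw [e]
  exact dvd_add (dvd_mul_sub hx hy) (dvd_mul_sub hz hw)

/-- `eps` is multiplicative on matrices of odd determinant. -/
theorem eps_mul {a b c d a' b' c' d' : ℤ} (h : ¬ (2 : ℤ) ∣ a * d - b * c) (h' : ¬ (2 : ℤ) ∣ a' * d' - b' * c') :
    eps (a * a' + b * c') (a * b' + b * d') (c * a' + d * c') (c * b' + d * d') =
      eps a b c d * eps a' b' c' d' := by
  obtain ⟨u1, h1⟩ := rep2 a
  obtain ⟨u2, h2⟩ := rep2 b
  obtain ⟨u3, h3⟩ := rep2 c
  obtain ⟨u4, h4⟩ := rep2 d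
  obtain ⟨v1, k1⟩ := rep2 a'
  obtain ⟨v2, k2⟩ := rep2 b'
  obtain ⟨v3, k3⟩ := rep2 c'
  obtain ⟨v4, k4⟩ := rep2 d'
  rw [eps_mod (dvd_lin h1 k1 h2 k3) (dvd_lin h1 k2 h2 k4) (dvd_lin h3 k1 h4 k3) (dvd_lin h3 k2 h4 k4),
    eps_mod h1 h2 h3 h4, eps_mod k1 k2 k3 k4]
  apply mul_fin
  · have e := dvd_mul_sub h1 h4
    have e' := dvd_mul_sub h2 h3
    omega
  · have e := dvd_mul_sub k1 k4
    have e' := dvd_mul_sub k2 k3
    omega

theorem eps_one : eps 1 0 0 1 = 1 := by decide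

/-- A matrix congruent to the identity modulo `2`. -/
theorem eps_id {a b c d : ℤ} (hb : (2 : ℤ) ∣ b) (hc : (2 : ℤ) ∣ c) : eps a b c d = 1 := by
  unfold eps
  rw [if_neg]
  omega

theorem eps_adj {a b c d : ℤ} : eps d (-b) (-c) a = eps a b c d := by
  have h : ((d + a) % 2 = 0 ∧ ¬ ((-b) % 2 = 0 ∧ (-c) % 2 = 0)) ↔ ((a + d) % 2 = 0 ∧ ¬ (b % 2 = 0 ∧ c % 2 = 0)) := by
    omega
  unfold eps
  by_cases h' : (a + d) % 2 = 0 ∧ ¬ (b % 2 = 0 ∧ c % 2 = 0)
  · rw [if_pos h', if_pos (h.2 h')]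
  · rw [if_neg h', if_neg (mt h.1 h')]

theorem eps_neg {a b c d : ℤ} : eps (-a) (-b) (-c) (-d) = eps a b c d := by
  apply eps_mod <;> omega

/-- Multiples by odd numbers. -/
theorem eps_odd {k a b c d : ℤ} (hk : ¬ (2 : ℤ) ∣ k) : eps (k * a) (k * b) (k * c) (k * d) = eps a b c d := by
  have h : ∀ x : ℤ, (2 : ℤ) ∣ k * x - x := by
    intro x
    have e : k * x - x = (k - 1) * x := by ring
    rw [e]
    exact Dvd.dvd.mul_right (by omega) x
  exact eps_mod (h a) (h b) (h c) (h d)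

section

variable {R : Type} [AddCommGroup R]

theorem eps_smul_smul (a b c d : ℤ) (G : ℤ → ℤ → R) : eps a b c d • (eps a b c d • G) = G := by
  rw [smul_smul, eps_sq, one_smul]

/-- Potentials of symbols twisted by `eps` for the group of all `(a b; c d)` in `SL₂(ℤ)` with `p^r ∣ b`, `p^s ∣ c`. -/
def SymE (p r s : ℕ) (G : ℤ → ℤ → R) : Prop :=
  Homog G ∧ ∀ a b c d : ℤ, a * d - b * c = 1 → (p : ℤ) ^ r ∣ b → (p : ℤ) ^ s ∣ c →
    EqC (act a b c d G) (eps a b c d • G)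

theorem SymE.add {p r s : ℕ} {G H : ℤ → ℤ → R} (h : SymE p r s G) (h' : SymE p r s H) :
    SymE p r s (G + H) :=
  ⟨h.1.add h'.1, fun a b c d hd hb hc => by
    rw [smul_add]; exact (h.2 a b c d hd hb hc).add (h'.2 a b c d hd hb hc)⟩

theorem SymE.neg {p r s : ℕ} {G : ℤ → ℤ → R} (h : SymE p r s G) : SymE p r s (-G) :=
  ⟨h.1.neg, fun a b c d hd hb hc => by
    rw [smul_neg]; exact (h.2 a b c d hd hb hc).neg⟩

theorem SymE.smul {S : Type} [Monoid S] [DistribMulAction S R] (x : S) {p r s : ℕ}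
    {G : ℤ → ℤ → R} (h : SymE p r s G) : SymE p r s (x • G) :=
  ⟨h.1.smul x, fun a b c d hd hb hc => by
    have e : eps a b c d • (x • G) = x • (eps a b c d • G) := by
      funext u v
      exact smul_comm (eps a b c d) x (G u v)
    rw [e]
    exact (h.2 a b c d hd hb hc).smul x⟩

theorem SymE.zero (p r s : ℕ) : SymE p r s (0 : ℤ → ℤ → R) :=
  ⟨fun _ _ _ _ _ => rfl, fun _ _ _ _ _ _ _ => by
    rw [smul_zero]; exact Pool.Agent.Helper14.CV.EqC.refl _⟩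

/-- Scalar multiples of elements of the group. -/
theorem SymE.mem {p r s : ℕ} {G : ℤ → ℤ → R} (h : SymE p r s G) (k a b c d : ℤ) (hk : k ≠ 0)
    (hd : a * d - b * c = 1) (hb : (p : ℤ) ^ r ∣ b) (hc : (p : ℤ) ^ s ∣ c) :
    EqC (act (k * a) (k * b) (k * c) (k * d) G) (eps a b c d • G) :=
  (h.1.scale k hk (by rw [hd]; exact one_ne_zero)).trans (h.2 a b c d hd hb hc)

/-- A twisted symbol composed with a matrix `(x y; z w)` of odd determinant which normalises the group is a twisted symbol. -/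
theorem SymE.act {p r s r' s' : ℕ} {G : ℤ → ℤ → R} (h : SymE p r s G) {x y z w : ℤ}
    (hdet : ¬ (2 : ℤ) ∣ x * w - y * z)
    (hn : ∀ a b c d : ℤ, a * d - b * c = 1 → (p : ℤ) ^ r' ∣ b → (p : ℤ) ^ s' ∣ c →
      ∃ a' b' c' d' : ℤ, a' * d' - b' * c' = 1 ∧ (p : ℤ) ^ r ∣ b' ∧ (p : ℤ) ^ s ∣ c' ∧
        x * a + y * c = a' * x + b' * z ∧ x * b + y * d = a' * y + b' * w ∧
        z * a + w * c = c' * x + d' * z ∧ z * b + w * d = c' * y + d' * w) :
    SymE p r' s' (act x y z w G) := by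
  have hdet0 : x * w - y * z ≠ 0 := by
    intro h0
    rw [h0] at hdet
    exact hdet (dvd_zero _)
  refine ⟨h.1.act hdet0, fun a b c d hd hb hc => ?_⟩
  obtain ⟨a', b', c', d', hd', hb', hc', e1, e2, e3, e4⟩ := hn a b c d hd hb hc
  have o1 : ¬ (2 : ℤ) ∣ a * d - b * c := by rw [hd]; decide
  have o2 : ¬ (2 : ℤ) ∣ a' * d' - b' * c' := by rw [hd']; decide
  have m1 := eps_mul hdet o1
  have m2 := eps_mul o2 hdet
  have e : eps a b c d = eps a' b' c' d' := by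
    rw [e1, e2, e3, e4, m2] at m1
    rcases eps_cases x y z w with hx | hx <;> rw [hx] at m1 <;> linarith
  rw [Pool.Agent.Helper14.CV.act_act, e1, e2, e3, e4, ← Pool.Agent.Helper14.CV.act_act, e]
  exact (h.2 a' b' c' d' hd' hb' hc').act hdet0

end

open Classical in
/-- The values at all words in the `T_l`, `l ≠ 2, p` prime (`Tl l 2`), as a linear map. -/
noncomputable def evLE (p : ℕ) : (ℤ → ℤ → ℂ) →ₗ[ℂ] (List ℕ → ℂ) where
  toFun G ls := if OkE p ls then evw 2 ls G else 0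
  map_add' G H := by
    funext ls
    simp only [Pi.add_apply]
    split_ifs
    · simp only [evw, Pool.Agent.Helper14.W5.Tw_add, Pi.add_apply]; abel
    · simp
  map_smul' s G := by
    funext ls
    simp only [Pi.smul_apply, RingHom.id_apply]
    split_ifs
    · simp only [evw, Pool.Agent.Helper14.W5.Tw_smul, Pi.smul_apply, smul_sub]
    · simp

/-- New twisted symbols of level `p^n` with `W = -1` and `* = +1` (translations by even multiples). -/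
def NewSymE (p n : ℕ) (G : ℤ → ℤ → ℂ) : Prop :=
  SymE p 0 n G ∧ EqC (∑ i ∈ Finset.range p, act p (2 * i) 0 p G) 0 ∧
    EqC (∑ i ∈ Finset.range p, act 1 0 (2 * i * (p : ℤ) ^ (n - 1)) 1 G) 0 ∧
    EqC (act 0 (-1) ((p : ℤ) ^ n) 0 G) (-G) ∧ EqC (act (-1) 0 0 1 G) G

private theorem sum_add_sum (p : ℕ) (F : ℕ → (ℤ → ℤ → ℂ) → (ℤ → ℤ → ℂ))
    (hF : ∀ i G H, F i (G + H) = F i G + F i H) (G H : ℤ → ℤ → ℂ)
    (h : EqC (∑ i ∈ Finset.range p, F i G) 0) (h' : EqC (∑ i ∈ Finset.range p, F i H) 0) :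
    EqC (∑ i ∈ Finset.range p, F i (G + H)) 0 := by
  have e : ∑ i ∈ Finset.range p, F i (G + H) =
      ∑ i ∈ Finset.range p, F i G + ∑ i ∈ Finset.range p, F i H := by
    rw [← Finset.sum_add_distrib]
    exact Finset.sum_congr rfl fun i _ => hF i G H
  rw [e]
  have := h.add h'
  rwa [add_zero] at this

theorem NewSymE.add {p n : ℕ} {G H : ℤ → ℤ → ℂ} (h : NewSymE p n G) (h' : NewSymE p n H) :
    NewSymE p n (G + H) := by
  obtain ⟨a1, a2, a3, a4, a5⟩ := h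
  obtain ⟨b1, b2, b3, b4, b5⟩ := h'
  refine ⟨SymE.add a1 b1, sum_add_sum p (fun i G => act p (2 * i) 0 p G) (fun _ _ _ => rfl) G H a2 b2,
    sum_add_sum p (fun i G => act 1 0 (2 * i * (p : ℤ) ^ (n - 1)) 1 G) (fun _ _ _ => rfl) G H a3 b3,
    ?_, a5.add b5⟩
  rw [neg_add]; exact a4.add b4

theorem NewSymE.smul {p n : ℕ} (s : ℂ) {G : ℤ → ℤ → ℂ} (h : NewSymE p n G) :
    NewSymE p n (s • G) := by
  obtain ⟨a1, a2, a3, a4, a5⟩ := h
  refine ⟨SymE.smul s a1, ?_, ?_, ?_, a5.smul s⟩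
  · have := a2.smul s
    rw [smul_zero, Finset.smul_sum] at this
    exact this
  · have := a3.smul s
    rw [smul_zero, Finset.smul_sum] at this
    exact this
  · rw [← smul_neg]; exact a4.smul s

/-- New twisted symbols of level `p^n` (`W = -1`, `* = +1`) as a subspace. -/
def NSE (p n : ℕ) : Submodule ℂ (ℤ → ℤ → ℂ) where
  carrier := {G | NewSymE p n G}
  add_mem' h h' := NewSymE.add h h'
  zero_mem' := by
    refine ⟨SymE.zero p 0 n, ?_, ?_, ?_, Pool.Agent.Helper14.CV.EqC.refl _⟩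
    · exact ⟨0, fun p q _ => by simp [Pool.Agent.Helper14.CV.act]⟩
    · exact ⟨0, fun p q _ => by simp [Pool.Agent.Helper14.CV.act]⟩
    · exact ⟨0, fun p q _ => by simp [Pool.Agent.Helper14.CV.act]⟩
  smul_mem' s _ h := NewSymE.smul s h

end Pool.Agent.Helper4.TL
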