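import Pool.Agent.Helper4.TL.Eps
import Pool.Agent.Helper14.W5.StC

/-!
# Project TL (levels `4·5^n`): values of twisted symbols on paths

`edgeE μ u v G` is `eps(g) (G(g u) - G(g v))` for the standard matrix `g` with plane coordinates `(x, y)`; for a twisted symbol the same holds for every matrix with these
coordinates (EDG).
-/

set_option autoImplicit false

namespace Pool.Agent.Helper4.TL

open Pool.Agent.Helper14.W5 (rY5 edge5 Pl5)

/-- The sign of the standard matrix `(1, 5^μ X; 5 Y, 1 + 5^(μ+1) X Y)`. -/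
noncomputable def sgE (μ : ℕ) {q q' : ℕ} (x : ZMod q) (y : ZMod q') : ℤ :=
  eps 1 (5 ^ μ * (x.val : ℤ)) (5 * rY5 μ x y) (1 + 5 ^ (μ + 1) * (x.val : ℤ) * rY5 μ x y)

/-- The twisted value of the symbol of `G` on the path from `g v` to `g u`, where `g` is the standard matrix with plane coordinates `(x, y)`. -/
noncomputable def edgeE {R : Type} [AddCommGroup R] (μ : ℕ) {q q' : ℕ} (u1 u2 v1 v2 : ℤ)
    (G : ℤ → ℤ → R) (x : ZMod q) (y : ZMod q') : R :=
  sgE μ x y • edge5 μ u1 u2 v1 v2 G x y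

/-- EDG (from `S5PlA`, `S5PlU`, both proved). For a twisted symbol `G` and every matrix `g = (a, 5^μ b; 5c, d)` with plane coordinates `(x, y)` the value of `eps(g) G` on the path from `g v` to `g u` is `edgeE`.
Proof: `g = γ g0`, `g0` the standard matrix, `γ` in the group (PLU), `G(γ w) - G(γ w') = eps(γ) (G w - G w')`, `eps(g) = eps(γ) eps(g0)` (`eps_mul`), `eps(γ)² = 1`. -/
def TEdg : Prop := ∀ (R : Type) (_ : AddCommGroup R) (μ r s : ℕ) (G : ℤ → ℤ → R),
  SymE 5 (r + μ) (s + 1) G → ∀ (u1 u2 v1 v2 : ℤ), (u1 ≠ 0 ∨ u2 ≠ 0) → (v1 ≠ 0 ∨ v2 ≠ 0) →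
  ∀ (x : ZMod (5 ^ r)) (y : ZMod (5 ^ s)) (a b c d : ℤ), Pl5 μ a b c d x y →
  edgeE μ u1 u2 v1 v2 G x y = eps a (5 ^ μ * b) (5 * c) d • (G (a * u1 + 5 ^ μ * b * u2) (5 * c * u1 + d * u2) -
    G (a * v1 + 5 ^ μ * b * v2) (5 * c * v1 + d * v2))

end Pool.Agent.Helper4.TL
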