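import Pool.Agent.Helper4.TL.StD
import Pool.Agent.Helper99.W5.M_Ld

/-!
# Project TL, module LdV: leading forms of `T_7² - 2 T_3 T_7 - 2`
-/

set_option autoImplicit false

namespace Pool.Agent.Helper4.TL

open Pool.Agent.Helper14.W5 Pool.Agent.Helper99.W5

section ops

variable {r s : ℕ}

private theorem lv_rel (hTrm : S5Trm) (F : Fin 2 → Fn5 (5 ^ r) (5 ^ s)) (h : RelE F) (ρ : Fin 2) :
    ∑ f : Fin 2, opL (relE ρ f) (F f) = 0 := by
  have h0 : ∀ G : Fn5 (5 ^ r) (5 ^ s), op5 1 0 0 1 G = G := fun G => (hTrm (ZMod 5) r s G).2.1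
  rw [Fin.sum_univ_two]
  fin_cases ρ
  · simp only [relE, ld_cons, ld_nil, LinearMap.add_apply, LinearMap.smul_apply,
      LinearMap.zero_apply, h0]
    funext x y
    have h1 := h.1 x y
    simp only [Pi.add_apply, Pi.smul_apply, smul_eq_mul, Pi.zero_apply, add_zero, zero_add]
    push_cast
    change 1 * F 1 x y + -1 * tr5 2 (-1) 1 (-2) (F 1) x y = 0
    linear_combination h1
  · simp only [relE, ld_cons, ld_nil, LinearMap.add_apply, LinearMap.smul_apply,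
      LinearMap.zero_apply, h0]
    funext x y
    have h1 := h.2 x y
    simp only [Pi.add_apply, Pi.smul_apply, smul_eq_mul, Pi.zero_apply, add_zero]
    push_cast
    change 1 * F 0 x y + (1 * tr5 1 1 0 1 (F 0) x y + (-1 * tr5 3 (-2) 1 (-3) (F 0) x y +
      -1 * tr5 3 1 1 2 (F 0) x y)) + (-1 * F 1 x y + 1 * tr5 3 (-2) 1 (-3) (F 1) x y) = 0
    linear_combination h1

/-- A multiple of a relation vanishes. -/
private theorem lv_mulrel (hTrm : S5Trm) (F : Fin 2 → Fn5 (5 ^ r) (5 ^ s)) (h : RelE F) (ρ : Fin 2)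
    (U : List Tm) (hU : ∀ t ∈ U, Gd t) (hR : ∀ f, ∀ t ∈ relE ρ f, Gd t) :
    ∑ f : Fin 2, opL (sclL (-1) (mulL U (relE ρ f))) (F f) = 0 := by
  have h1 : ∀ f : Fin 2, opL (sclL (-1) (mulL U (relE ρ f))) (F f) =
      ((-1 : ℤ) : ZMod 5) • (opL U) (opL (relE ρ f) (F f)) := by
    intro f
    rw [ld_scl, ld_mulL hTrm U (relE ρ f) hU (hR f)]
    rfl
  rw [Finset.sum_congr rfl fun f _ => h1 f, ← Finset.smul_sum, ← map_sum, lv_rel hTrm F h, map_zero,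
    smul_zero]

/-- The monomial `(oB - 1)^i * (oA - 1)^j`. -/
private theorem lv_lead (hTrm : S5Trm) (hLow0 : S5Low0) (hNfa : S5Nfa) (i j : ℕ) (d : ℤ)
    (F : Fn5 (5 ^ r) (5 ^ s)) (hF : F ∈ Wd5 d) :
    ldMon 0 (i, 0, j) F - (dY ^ i * dX ^ j : Module.End (ZMod 5) (Fn5 (5 ^ r) (5 ^ s))) F ∈
      Wd5 (d - (((i + j : ℕ) : ℤ) + 1)) := by
  obtain ⟨l1, l2, l3, l4, l5, l6, l7, l8, _⟩ := hLow0 r s
  obtain ⟨n1, n2, n3, n4, n5, n6, n7, n8⟩ := hNfa r s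
  have hA := ld_lw_pow hLow0 (oA - 1 : Module.End (ZMod 5) (Fn5 (5 ^ r) (5 ^ s))) 1
    (by exact_mod_cast n7) j
  have hB := ld_lw_pow hLow0 (oB - 1 : Module.End (ZMod 5) (Fn5 (5 ^ r) (5 ^ s))) 1
    (by exact_mod_cast n8) i
  have hX := ld_lw_pow hLow0 (dX : Module.End (ZMod 5) (Fn5 (5 ^ r) (5 ^ s))) 1
    (by exact_mod_cast l7) j
  have pA := ld_pow hLow0 _ _ n7 l7 n5 j
  have pB := ld_pow hLow0 _ _ n8 l8 n6 i
  have q2 := l1 _ _ _ _ hB pA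
  have q3 := l1 _ _ _ _ pB hX
  have e2 : ((1 * i : ℕ) : ℤ) + ((j : ℤ) + 2) = ((i + j : ℕ) : ℤ) + 2 := by push_cast; ring
  have e3 : (i : ℤ) + 2 + ((1 * j : ℕ) : ℤ) = ((i + j : ℕ) : ℤ) + 2 := by push_cast; ring
  rw [e2] at q2
  rw [e3] at q3
  have q4 := l2 _ _ _ q2 q3
  have e4 : (oB - 1) ^ i * ((oA - 1) ^ j - dX ^ j) + ((oB - 1) ^ i - dY ^ i) * dX ^ j =
      ((oB - 1) ^ i * (oA - 1) ^ j - dY ^ i * dX ^ j : Module.End (ZMod 5) (Fn5 (5 ^ r) (5 ^ s))) := by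
    rw [mul_sub, sub_mul]
    abel
  rw [e4] at q4
  have m2 := l4 _ _ (((i + j : ℕ) : ℤ) + 1) (by linarith) q4 d F hF
  have h1 : (oW 0 : Module.End (ZMod 5) (Fn5 (5 ^ r) (5 ^ s))) = 1 := by
    refine LinearMap.ext fun G => ?_
    exact (hTrm (ZMod 5) r s G).2.1
  have e6 : ldMon 0 (i, 0, j) F - (dY ^ i * dX ^ j : Module.End (ZMod 5) (Fn5 (5 ^ r) (5 ^ s))) F =
      ((oB - 1) ^ i * (oA - 1) ^ j - dY ^ i * dX ^ j : Module.End (ZMod 5) (Fn5 (5 ^ r) (5 ^ s))) F := by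
    rw [LinearMap.sub_apply]
    unfold ldMon
    simp only [pow_zero, mul_one, h1, one_mul]
  rw [e6]
  exact m2

/-- Sums over `w` and `M7` with one nonzero block. -/
private theorem lv_sum (S : Finset (ℕ × ℕ × ℕ)) (hS : S ⊆ M7) (c : Fin 4 → ℕ × ℕ × ℕ → ZMod 5)
    (hc : ∀ w t, w ≠ 0 ∨ t ∉ S → c w t = 0) :
    ∑ w, ∑ t ∈ M7, c w t • (ldMon w t : Module.End (ZMod 5) (Fn5 (5 ^ r) (5 ^ s))) =
      ∑ t ∈ S, c 0 t • ldMon 0 t := by
  rw [Finset.sum_eq_single (0 : Fin 4)]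
  · refine (Finset.sum_subset hS fun t _ hn => ?_).symm
    rw [hc 0 t (Or.inr hn), zero_smul]
  · intro w _ hw
    refine Finset.sum_eq_zero fun t _ => ?_
    rw [hc w t (Or.inl hw), zero_smul]
  · intro h
    exact absurd (Finset.mem_univ _) h

private theorem lv_Lo (hLow0 : S5Low0) : (LoE : Module.End (ZMod 5) (Fn5 (5 ^ r) (5 ^ s))) =
    (4 : ZMod 5) • (dY ^ 1 * dX ^ 5) + (4 : ZMod 5) • (dY ^ 5 * dX ^ 1) := by
  obtain ⟨l1, l2, l3, l4, l5, l6, l7, l8, hc, _⟩ := hLow0 r s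
  have hc2 : ∀ Z : Module.End (ZMod 5) (Fn5 (5 ^ r) (5 ^ s)), dX * (dY * Z) = dY * (dX * Z) := by
    intro Z
    rw [← mul_assoc, hc, mul_assoc]
  have e : (dX * dY * (dX ^ 4 + dY ^ 4) : Module.End (ZMod 5) (Fn5 (5 ^ r) (5 ^ s))) =
      dY ^ 1 * dX ^ 5 + dY ^ 5 * dX ^ 1 := by
    simp only [pow_succ, pow_zero, one_mul, mul_add, mul_assoc, hc, hc2]
  unfold LoE
  rw [e, ld_smul_add]

end ops

/-- Module LdV. -/
theorem hLdV (ht : S5Trm) (hl : S5Low0) (hn : S5Nfa) (he : S5Exp) (hg : TCeG) (hc : TCeV0) (hc1 : TCeV1) : TLdV := by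
  intro r s d F hR hF0 hF1
  have a3 : ∀ i f, ∀ t ∈ T3E i f, Gd t := fun i f => (hg i f).1
  have a7 : ∀ i f, ∀ t ∈ T7E i f, Gd t := fun i f => (hg i f).2.1
  have ar : ∀ i f, ∀ t ∈ relE i f, Gd t := fun i f => (hg i f).2.2.1
  have av : ∀ i f, ∀ t ∈ mVE i f, Gd t := fun i f => (hg i f).2.2.2.2
  have hB : ∀ i f, ∀ t ∈ BVE i f, Gd t := fun i f =>
    ld_gd_app (ld_gd_app (ld_gd_app (ld_gd_app (ld_gd_mm a7 a7 i f)
      (ld_gd_scl _ (ld_gd_mm a3 a7 i f))) (ld_gd_id (-2) i f))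
      (ld_gd_scl _ (ld_gd_mulL (av i 0) (ar 0 f)))) (ld_gd_scl _ (ld_gd_mulL (av i 1) (ar 1 f)))
  obtain ⟨l1, l2, l3, l4, l5, l6, l7, l8, _⟩ := hl r s
  -- modulo the relations
  have eV : ∀ i : Fin 2, ∑ f : Fin 2, opL (VLE i f) (F f) = ∑ f : Fin 2, opL (BVE i f) (F f) := by
    intro i
    have h0 := lv_mulrel ht F hR 0 (mVE i 0) (av i 0) (ar 0)
    have h1 := lv_mulrel ht F hR 1 (mVE i 1) (av i 1) (ar 1)
    have e : ∀ f : Fin 2, opL (BVE i f) (F f) = opL (VLE i f) (F f) +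
        opL (sclL (-1) (mulL (mVE i 0) (relE 0 f))) (F f) +
        opL (sclL (-1) (mulL (mVE i 1) (relE 1 f))) (F f) := by
      intro f
      unfold BVE
      rw [ld_app, ld_app]
      rfl
    rw [Finset.sum_congr rfl fun f _ => e f, Finset.sum_add_distrib, Finset.sum_add_distrib, h0, h1,
      add_zero, add_zero]
  have kV1 : ∀ f : Fin 2, Lw (opL (BVE 1 f) : Module.End (ZMod 5) (Fn5 (5 ^ r) (5 ^ s))) 6 := by
    intro f
    have h := ld_key hl hn he (r := r) (s := s) (BVE 1 f) (hB 1 f) 6 (by norm_num) (fun _ _ => 0)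
      (fun w t ht hw => by
        have := ld_cast (S := cS (BVE 1 f) w t.1 t.2.1 t.2.2) (C := 0)
          (by rw [sub_zero]; exact hc1 f w t ht (by omega))
        rw [this, Int.cast_zero])
    simp only [zero_smul, Finset.sum_const_zero, sub_zero] at h
    exact_mod_cast h
  have k01 : Lw (opL (BVE 0 1) : Module.End (ZMod 5) (Fn5 (5 ^ r) (5 ^ s))) 7 := by
    have h := ld_key hl hn he (r := r) (s := s) (BVE 0 1) (hB 0 1) 7 (by norm_num) (fun _ _ => 0)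
      (fun w t ht hw => by
        have h0 := hc 1 w t ht
        rw [if_neg (fun h => absurd h.1 (by decide))] at h0
        have := ld_cast h0
        rw [this, Int.cast_zero])
    simp only [zero_smul, Finset.sum_const_zero, sub_zero] at h
    exact_mod_cast h
  have k00 := ld_key hl hn he (r := r) (s := s) (BVE 0 0) (hB 0 0) 7 (by norm_num)
    (fun w t => ((if (0 : Fin 2) = 0 ∧ w = 0 ∧ (t = (1, 0, 5) ∨ t = (5, 0, 1)) then 4 else 0 : ℤ) : ZMod 5))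
    (fun w t ht hw => ld_cast (hc 0 w t ht))
  rw [lv_sum {(1, 0, 5), (5, 0, 1)} (by decide) _ (fun w t ht => by
      rw [if_neg, Int.cast_zero]
      rintro ⟨-, h1, h2⟩
      rcases ht with h3 | h3
      · exact h3 h1
      · exact h3 (by rw [Finset.mem_insert, Finset.mem_singleton]; exact h2)),
      Finset.sum_insert (by decide), Finset.sum_singleton,
      if_pos ⟨rfl, rfl, Or.inl rfl⟩, if_pos ⟨rfl, rfl, Or.inr rfl⟩] at k00
  refine ⟨?_, ?_⟩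
  · have h1 := k00 d (F 0) hF0
    have h2 := k01 d (F 1) hF1
    have e0 : ((7 : ℕ) : ℤ) = 7 := rfl
    rw [e0] at h1
    have a1 := Submodule.smul_mem _ (4 : ZMod 5) (lv_lead ht hl hn 1 5 d (F 0) hF0)
    have a2 := Submodule.smul_mem _ (4 : ZMod 5) (lv_lead ht hl hn 5 1 d (F 0) hF0)
    have e1 : d - (((1 + 5 : ℕ) : ℤ) + 1) = d - 7 := by norm_num
    have e2 : d - (((5 + 1 : ℕ) : ℤ) + 1) = d - 7 := by norm_num
    rw [e1] at a1
    rw [e2] at a2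
    have e : ∑ f : Fin 2, opL (VLE 0 f) (F f) - LoE (F 0) =
        (opL (BVE 0 0) - (((4 : ℤ) : ZMod 5) • ldMon 0 (1, 0, 5) + ((4 : ℤ) : ZMod 5) • ldMon 0 (5, 0, 1)) :
          Module.End (ZMod 5) (Fn5 (5 ^ r) (5 ^ s))) (F 0) +
        ((4 : ZMod 5) • (ldMon 0 (1, 0, 5) (F 0) -
          (dY ^ 1 * dX ^ 5 : Module.End (ZMod 5) (Fn5 (5 ^ r) (5 ^ s))) (F 0)) +
        (4 : ZMod 5) • (ldMon 0 (5, 0, 1) (F 0) -
          (dY ^ 5 * dX ^ 1 : Module.End (ZMod 5) (Fn5 (5 ^ r) (5 ^ s))) (F 0))) +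
        opL (BVE 0 1) (F 1) := by
      rw [eV, Fin.sum_univ_two, lv_Lo hl]
      simp only [LinearMap.sub_apply, LinearMap.add_apply, LinearMap.smul_apply, smul_sub]
      push_cast
      abel
    rw [e]
    exact Submodule.add_mem _ (Submodule.add_mem _ h1 (Submodule.add_mem _ a1 a2)) h2
  · have h1 := kV1 0 d (F 0) hF0
    have h2 := kV1 1 d (F 1) hF1
    have h3 := Submodule.add_mem _ h1 h2
    have h4 := eV 1
    rw [Fin.sum_univ_two (fun f => opL (BVE 1 f) (F f))] at h4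
    rw [← h4] at h3
    exact h3

end Pool.Agent.Helper4.TL
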