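import Pool.Agent.Helper4.TL.M_CertA
import Pool.Agent.Helper4.TL.M_CertV0
import Pool.Agent.Helper4.TL.M_CertV1
import Pool.Agent.Helper4.TL.M_LdV
import Pool.Agent.Helper68.TL.M_Tre
import Pool.Agent.Helper85.TL.M_Edg
import Pool.Agent.Helper51.TL.M_Rel
import Pool.Agent.Helper69.TL.M_Ex
import Pool.Agent.Helper42.TL.M_Uni
import Pool.Agent.Helper43.TL.M_HkB
import Pool.Agent.Helper88.TL.M_HkF
import Pool.Agent.Helper93.TL.M_Hk
import Pool.Agent.Helper66.TL.M_LdU
import Pool.Agent.Helper97.TL.M_Om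
import Pool.Agent.Helper46.TL.M_Led
import Pool.Agent.Helper19.TL.M_Itr
import Pool.Agent.Helper58.TL.M_Tri
import Pool.Agent.Helper83.TL.M_Lifp
import Pool.Agent.Helper67.TL.M_Lif
import Pool.Agent.Helper4.TL.M_Unb
import Pool.Agent.Helper4.TL.M_Cnt
import Pool.Agent.Helper77.TL.M_LBof
import Pool.Agent.Helper70.TLE.M_Hk
import Pool.Agent.Helper68.TLE.M_HkS
import Pool.Agent.Helper38.CV.M_Far
import Pool.Agent.Helper55.CV.M_Fex
import Pool.Agent.Helper63.W5.M_PlA
import Pool.Agent.Helper10.W5.M_PlU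
import Pool.Agent.Helper16.W5.M_Trm
import Pool.Agent.Helper7.W5.M_Low0
import Pool.Agent.Helper63.W5.M_Prd
import Pool.Agent.Helper86.W5.M_SubA
import Pool.Agent.Helper36.W5.M_SubB
import Pool.Agent.Helper72.W5.M_Nfa
import Pool.Agent.Helper29.W5.M_Nf
import Pool.Agent.Helper98.W5.M_Exp
import Pool.Agent.Helper81.W5.M_Lw1
import Pool.Agent.Helper32.W5.M_Bb

/-!
# Project TL: the lower bound for levels `4·5^n`
-/

set_option autoImplicit false

namespace Pool.Agent.Helper4.TL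

open Pool.Agent.Helper14.W5 (S5PlA S5PlU S5Trm S5Low0 S5Nfa S5Exp S5Lw1 S5Bb)
open Pool.Agent.Helper93.TLE (LBE ddE5)

theorem plA : S5PlA := Pool.Agent.Helper63.W5.hPlA

theorem trm : S5Trm := Pool.Agent.Helper16.W5.hTrm

theorem edgT : TEdg := Pool.Agent.Helper85.TL.hEdg plA Pool.Agent.Helper10.W5.hPlU

theorem treT : TTre := Pool.Agent.Helper68.TL.hTre edgT plA

theorem relT : TRel := Pool.Agent.Helper51.TL.hRel treT

theorem exT : TEx := Pool.Agent.Helper69.TL.hEx trm plA edgT Pool.Agent.Helper55.CV.hFex Pool.Agent.Helper38.CV.hFar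

theorem uniT : TUni := Pool.Agent.Helper42.TL.hUni edgT plA Pool.Agent.Helper38.CV.hFar

theorem lifpT : TLifp := Pool.Agent.Helper83.TL.hLifp trm

theorem lifT : TLif := Pool.Agent.Helper67.TL.hLif relT lifpT exT uniT

theorem triT : TTri := by
  have low0 := Pool.Agent.Helper7.W5.hLow0
  have prd := Pool.Agent.Helper63.W5.hPrd
  have subA := Pool.Agent.Helper86.W5.hSubA low0 prd
  have subB := Pool.Agent.Helper36.W5.hSubB low0 prd
  have nfa := Pool.Agent.Helper72.W5.hNfa low0 subA subB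
  have nf := Pool.Agent.Helper29.W5.hNf trm low0 nfa subA
  have exp := Pool.Agent.Helper98.W5.hExp low0 nfa nf
  have lw1 := Pool.Agent.Helper81.W5.hLw1 low0 nfa nf
  have bb := Pool.Agent.Helper32.W5.hBb
  have hkB := Pool.Agent.Helper43.TL.hHkB Pool.Agent.Helper70.TLE.hHk (Pool.Agent.Helper68.TLE.hHkS Pool.Agent.Helper70.TLE.hHk)
  have hkF := Pool.Agent.Helper88.TL.hHkF hkB edgT plA
  have hk3 := Pool.Agent.Helper93.TL.hHk3 hkF treT trm
  have hk7 := Pool.Agent.Helper93.TL.hHk7 hkF treT trm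
  have ldU := Pool.Agent.Helper66.TL.hLdU trm low0 nfa exp hCeG hCeU
  have ldV := hLdV trm low0 nfa exp hCeG hCeV0 hCeV1
  have om := Pool.Agent.Helper97.TL.hOm trm low0 hCeG hCeO
  have led := Pool.Agent.Helper46.TL.hLed trm low0 nfa lw1 bb
  have itr := Pool.Agent.Helper19.TL.hItr relT hkB hk3 hk7 low0 ldU ldV om
  exact Pool.Agent.Helper58.TL.hTri low0 bb led exT itr

theorem cntT : TCnt := hCnt

/-- The lower bound for levels `4·5^n`. -/
theorem lb5 : LBE 5 2 ddE5 :=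
  Pool.Agent.Helper77.TL.hLBof triT lifT hUnb cntT

end Pool.Agent.Helper4.TL
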