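import Pool.Agent.Helper4.TL.StD

/-!
# Project TL: finite certificates, first part
-/

set_option autoImplicit false
set_option maxRecDepth 100000

namespace Pool.Agent.Helper4.TL

theorem hCeG : TCeG := by unfold TCeG; decide +kernel

theorem hCeO : TCeO := by unfold TCeO; decide +kernel

theorem hCeU : TCeU := by unfold TCeU; decide +kernel

end Pool.Agent.Helper4.TL
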